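import Pool.Agent.K35c.BL.Final

set_option autoImplicit false

/-!
# Poonen's strict inequality for all but finitely many families of each bounded length

Let `A` be a finite union-closed family in which every chain has at most `L` members. If
`log |A| ≥ 64 ^ ((L + 1) ^ 2)`, some element lies in at least `(1 / 2 + 64 ^ (-(L + 1))) |A|` members.

Up to isomorphism only finitely many separating families violate the bound on `|A|`, so for each `L`
Poonen's strict inequality (and the union-closed sets conjecture) holds for all but finitely many
families without chains of more than `L` members, with a gap that depends on `L` only.

Proof. Let `X`, `X'` be independent uniform members and `m = |A|`. Order the elements and let `w_X(i)` be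
the information (log of the inverse conditional probability) which the indicator of `i` has in `X`,
given the indicators of the smaller elements; let `S` be the sum of `w_X(i)` and `w_X'(i)` over all `i`
outside of `X ∪ X'`. A Kraft inequality for each value `Y` of `X ∪ X'` gives `E e ^ S ≤ m`. If each `i` is
missing in at least `(1/2 - c) m` members, then `E S ≥ (1 - 2 c) E H`, `H` the information of the missing
elements of `X`. The elements of `X` carry expected information at most `L - 1`, because an element has
positive information only if it is not forced, and the elements missing in `X` that are not forced give
a chain of members. So `E S ≥ (1 - 2 c) (log m - L + 1)`, and `E e ^ S ≤ m` shows that `S` is near `log m`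
with high probability. Now take `n = (8 ^ (L+1) - 1) / 7` independent members. With positive
probability `S ≥ (log m) / 2` for all pairs, and (Kraft again) a member `X_a` contained in the union of at
most `L` others has little information outside of this union. Then one finds greedily a chain of `L + 1`
unions: some element `i` outside of `X_a` and outside of all those unions is missing in an eighth of the
other members, so `X_a` is not contained in the union of any of those. This contradicts the bound on the
chains.
-/

namespace Pool.Agent.Results.MP_75f39d_co.BoundedLength

theorem result {α : Type*} [DecidableEq α] (L : ℕ) (A : Finset (Finset α))
    (hU : ∀ X ∈ A, ∀ Y ∈ A, X ∪ Y ∈ A)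
    -- every chain has at most `L` members
    (hchain : ∀ C ⊆ A, IsChain (· ⊆ ·) (C : Set (Finset α)) → C.card ≤ L)
    (hm : (64 : ℝ) ^ ((L + 1) ^ 2) ≤ Real.log A.card) :
    ∃ x, (1 / 2 + 1 / 64 ^ (L + 1)) * (A.card : ℝ) ≤ (A.filter fun X => x ∈ X).card :=
  Pool.Agent.K35c.BL.bounded_length L A hU hchain hm

end Pool.Agent.Results.MP_75f39d_co.BoundedLength
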