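import Pool.Agent.K35c.PD.Whole

set_option autoImplicit false

/-!
# Poonen's strict inequality for families containing a third of the subsets

Let `F` be a finite union-closed family with union `U`, `n = |U|`.

1. (Poonen's question for dense families.) If `F` separates the points of `U`, is not the power set
   of `U`, and contains at least a third of the subsets of `U`, then some element lies in strictly more
   than half of the members.
2. (Classification.) If `F` contains at least a third of the subsets of `U ≠ ∅`, separating or not,
   and no element lies in more than half of the members, then `F` is the power set of `U`, or the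
   family of all subsets of `U` that contain both or none of two given elements.
3. (Local form.) Let `S` be a nonempty finite set; nothing is assumed about the elements outside `S`. If
   the number `g` of the nonempty members of `F` contained in `S` satisfies
   `3 g ≥ 2 ^ |S| + 2 - ⌊3 |S| / 2⌋`, in particular if `g` is at least a third of the number of the
   nonempty subsets of `S`, then some element of `S` lies in strictly more than half of the members of
   `F`, or a set `P ⊆ S` with one or two elements splits off: `A ∪ P` and `A \ P` are members of `F` for
   all members `A`.

Proof. Let no element of `S` be in more than half of the members, and let (after removing elements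
of small degree) every element of `S` lie in at least `2 ^ |S| / 6` members contained in `S`. For the
part `K` of `F` with a given trace outside `S`, the number `U` of the edges of the cube entering `K` is
at least the number `∑ D_w` of the edges leaving it (`MP_9bc572_co.DenseInside`); now there is equality
for every `K`. Take `K = {A ∈ F : A ⊆ S}`. Equality in the sum gives equality in the edge inequality
for every `w ∈ S`, and the latter is inherited by the two compressed pairs in every step of its proof
(`tight_sat`). For the saturation in all directions this means: at most `|𝒟|` edges leave the family
`𝒟` of the sets `D ⊆ S \ {w}` such that `D ∪ {w}` contains no member of `K` containing `w`. It has less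
than `2 / 3` of the `2 ^ (|S| - 1)` sets. If `{w} ∉ K`, it is not empty, and then the inequality of
Harper shows that it contains at least half of the sets and that it is an extremal set of this
inequality; an extremal down-set of at least half, not all, of the sets contains a set of the form
`(S \ {w}) \ {a}` (`extremal`, by a strict form of the superadditivity of the sum of the digit sums).
So every member of `K` containing `w` contains `a`. As all degrees are at least `2 ^ |S| / 6`, this can
only hold for all `w ∈ S` if `S` has two elements and `K = {∅, S}`, and then `S` splits off because all
the other parts are in equality, too. If `{w} ∈ F`, then `w` splits off because it lies in exactly half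
of the members.

For 1 and 2 the local theorem is applied repeatedly: if disjoint sets `P_1, ..., P_i` with at most
two elements split off, then the members contained in `R = U \ (P_1 ∪ ... ∪ P_i)` are still at least a
third of the subsets of `R`, and so a further set `P ⊆ R` splits off. Finally the universe is
partitioned; all members `A` have `A ∩ P_i ∈ F`, so `P_i` consists of two elements lying in the same
members, or its elements can be added and removed one by one, and two blocks of the first kind leave
at most a quarter of the subsets.

The starting files have the density `9/20` (`DenseFamilies`) and, for the local form, `1/2`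
(`DenseInside`).
-/

namespace Pool.Agent.Results.MP_75f39d_co.DensityThird

open Finset

/-- Poonen's strict inequality for union-closed families containing a third of the subsets of the
union, the classification of the families of this density in which no element lies in more than
half of the members, and the local form. -/
theorem result {α : Type*} [DecidableEq α] (F : Finset (Finset α))
    (hF : ∀ A ∈ F, ∀ B ∈ F, A ∪ B ∈ F) :
    -- (1) Poonen's question for families containing a third of the subsets of the union
    ((∀ x ∈ F.sup id, ∀ y ∈ F.sup id, x ≠ y → ∃ A ∈ F, (x ∈ A ∧ y ∉ A) ∨ (y ∈ A ∧ x ∉ A)) →
      F ≠ (F.sup id).powerset → 2 ^ (F.sup id).card ≤ 3 * F.card →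
      ∃ x ∈ F.sup id, F.card < 2 * (F.filter (fun A => x ∈ A)).card) ∧
    -- (2) the classification, without separation
    ((F.sup id).Nonempty → 2 ^ (F.sup id).card ≤ 3 * F.card →
      (∃ x ∈ F.sup id, F.card < 2 * (F.filter (fun A => x ∈ A)).card) ∨
      F = (F.sup id).powerset ∨ ∃ x ∈ F.sup id, ∃ y ∈ F.sup id, x ≠ y ∧
        F = (F.sup id).powerset.filter (fun A => x ∈ A ↔ y ∈ A)) ∧
    -- (3) the local form
    (∀ S : Finset α, S.Nonempty →
      2 ^ S.card + 2 ≤ 3 * (F.filter (fun A => A ⊆ S ∧ A.Nonempty)).card + 3 * S.card / 2 →
      (∃ x ∈ S, F.card < 2 * (F.filter (fun A => x ∈ A)).card) ∨
      ∃ P ⊆ S, P.Nonempty ∧ P.card ≤ 2 ∧ ∀ A ∈ F, A ∪ P ∈ F ∧ A \ P ∈ F) := by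
  classical
  refine ⟨?_, ?_, ?_⟩
  · intro h1 h2 h3
    exact Pool.Agent.K35c.PD.poonen_third hF h1 h2 h3
  · intro h1 h2
    rcases Pool.Agent.K35c.PD.classify hF h1 h2 with h | h | ⟨x, hx, y, hy, hxy, h⟩
    · exact Or.inl h
    · exact Or.inr (Or.inl h)
    · refine Or.inr (Or.inr ⟨x, hx, y, hy, hxy, ?_⟩)
      convert h
  · intro S hS h
    exact Pool.Agent.K35c.PD.inside hF S hS h

end Pool.Agent.Results.MP_75f39d_co.DensityThird
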