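import Pool.Agent.K35c.HW.Main

set_option autoImplicit false

/-!
# Poonen's strict inequality for families generated by hypergraphs with heavy unions

Let `G` be a finite family of finite sets and `A` a family of unions of members of `G` that is closed
under unions with members of `G` (for instance all unions, or all unions of at least `t` members). For
a set `Z` let `G_Z` be the family of the members of `G` disjoint from `Z`. Suppose that for every `Z`
for which `G_Z` has a nonempty member

* some nonempty union `M` of members of `G_Z` has weights such that each member of `G_Z` meeting `M`
  has more than half of the weight of `M`, or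
* each nonempty member of `G_Z` contains a nonempty union `M` of members of `G` with weights such that
  each member of `G_Z` meeting `M` has at least half of the weight of `M`.

Then Poonen's strict inequality holds for `A`. The hypothesis holds for instance if the members of `G`
are the vertex sets of subtrees of a tree (intervals of a line, totally balanced hypergraphs): take for
`M` the member of `G_Z` whose vertex `x` nearest to a root is farthest from the root, with all the
weight on `x`. It also holds if the minimal nonempty members of `G` have at most two elements each, or
more generally if each of them carries weights such that all sets it is met in have at least half of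
the weight.

Proof. Suppose that no element lies in more than half of the members. If `M` is a nonempty union of
generators with such weights, the injection `S ↦ S ∪ M` from the members disjoint from `M` to those
containing `M` shows, as the other members have at least half of the weight, that it is a bijection:
`T \ M ∈ A` for all `T ∈ A`, `M ⊆ T`. In the first case moreover no other members exist, so `A` is the
product of `{∅, M}` and the family of the members disjoint from `M`, which is generated by `G_M`, and one
uses induction. In the second case, as every nonempty member contains such an `M`, the family is closed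
under differences. So it is a Boolean ring of sets, and a power set if it separates the points.
-/

namespace Pool.Agent.Results.MP_75f39d_co.HalfWeightUnions

/-- `M` is a union of members of `G`. -/
def UnionOf {α : Type*} (G : Finset (Finset α)) (M : Finset α) : Prop :=
  ∀ i ∈ M, ∃ g ∈ G, i ∈ g ∧ g ⊆ M

/-- For some weights on the points, `M` has positive weight, and every member of `G` which meets `M`
has at least half of the weight of `M` on `M`. -/
def Half {α : Type*} [DecidableEq α] (G : Finset (Finset α)) (M : Finset α) : Prop :=
  ∃ c : α → ℕ, 0 < ∑ x ∈ M, c x ∧ ∀ h ∈ G, (h ∩ M).Nonempty → ∑ x ∈ M, c x ≤ 2 * ∑ x ∈ h ∩ M, c x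

/-- For some weights on the points, every member of `G` which meets `M` has more than half of the
weight of `M` on `M`. -/
def OverHalf {α : Type*} [DecidableEq α] (G : Finset (Finset α)) (M : Finset α) : Prop :=
  ∃ c : α → ℕ, ∀ h ∈ G, (h ∩ M).Nonempty → ∑ x ∈ M, c x < 2 * ∑ x ∈ h ∩ M, c x

theorem result {α : Type*} [DecidableEq α] (G A : Finset (Finset α))
    -- `A` consists of unions of members of `G` and is closed under unions with members of `G`
    (hgen : ∀ S ∈ A, UnionOf G S) (hst : ∀ S ∈ A, ∀ g ∈ G, S ∪ g ∈ A)
    -- the hypothesis on the subfamilies of the members of `G` disjoint from a set `Z`
    (hG : ∀ Z : Finset α, (∃ g ∈ G, g.Nonempty ∧ Disjoint g Z) →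
      (∃ M : Finset α, M.Nonempty ∧ Disjoint M Z ∧ UnionOf G M ∧
        OverHalf (G.filter fun h => Disjoint h Z) M) ∨
      (∀ g ∈ G, g.Nonempty → Disjoint g Z → ∃ M : Finset α, M ⊆ g ∧ UnionOf G M ∧
        Half (G.filter fun h => Disjoint h Z) M))
    (hne : A.Nonempty)
    (hsep : ∀ x ∈ A.sup id, ∀ y ∈ A.sup id, x ≠ y →
      ∃ S ∈ A, (x ∈ S ∧ y ∉ S) ∨ (y ∈ S ∧ x ∉ S))
    (hpow : A ≠ (A.sup id).powerset) :
    ∃ x ∈ A.sup id, A.card < 2 * (A.filter (fun S => x ∈ S)).card := by
  by_contra hno
  push Not at hno
  exact hpow (Pool.Agent.K35c.HW.main G.card G A le_rfl ⟨hst, hgen⟩ hG hne hsep hno)

end Pool.Agent.Results.MP_75f39d_co.HalfWeightUnions
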