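import Pool.Agent.K35c.SG.Congr

set_option autoImplicit false

/-!
# Poonen's strict form for the lattices of submonoids (of subsemigroups, of subgroups)

We prove Poonen's strengthening of the union-closed sets conjecture for every separating finite
union-closed family whose inclusion order is dual to the lattice of all submonoids of a finite
monoid, provided that every group contained in the monoid is solvable or is generated by a proper
normal subgroup and two elements of prime power order outside of it. So nothing is assumed if all
subgroups of the monoid are solvable; by the classification of the finite simple groups the
condition holds for all finite groups. The lattice of all subsemigroups (the empty one included) of a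
finite semigroup `S` is the case of the monoid obtained from `S` by adjoining an identity, and the
submonoids of a finite group are its subgroups.

Proof. The elements used for the averaging form must generate join-irreducible submonoids:
idempotents, elements of prime power order of a group, and elements that lie in no group. For a
semigroup (the elements different from `1`, if `1` is the only unit) let `J` be a maximal J-class.
If it contains two idempotents that are neither R- nor L-related, one finds such elements `x`, `y` of
`J`, for which a subsemigroup containing `x` and `y` is determined by its part off the cross of an
idempotent; the subsemigroup formed by this idempotent alone makes the inequality strict. If it is a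
left or right group, one uses elements of prime power order, and if it is a single element that is
not a product of other elements, the lattice is either split by a two-element chain or the inequality
is strict. If there are other units, the group of units is used in the same way: either one generator
of prime power order above a normal subgroup exists, and again the inequality is strict or the
lattice splits, or the subgroup generated by a conjugate avoids both generators and makes the
inequality strict.
-/

namespace Pool.Agent.Results.MP_75f39d_co.SubmonoidLattices

universe u w

/-- `G` is solvable, or it is generated by a normal subgroup `N` and two elements `a`, `b` of prime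
power order outside `N`. -/
def SolvableOrPrimePowerGenerated (G : Type u) [Group G] : Prop :=
  Group.IsSolvable G ∨ ∃ N : Subgroup G, N.Normal ∧ ∃ a b : G, a ∉ N ∧ b ∉ N ∧
    (∃ p k : ℕ, p.Prime ∧ orderOf a = p ^ k) ∧ (∃ q l : ℕ, q.Prime ∧ orderOf b = q ^ l) ∧
    Subgroup.closure (insert a (insert b (N : Set G))) = ⊤

theorem result (M : Type u) [Monoid M] [Finite M]
    (hG : ∀ (G : Type u) [Group G] (φ : G →ₙ* M), Function.Injective φ →
      SolvableOrPrimePowerGenerated G)
    (α : Type w) [DecidableEq α] (A : Finset (Finset α))
    (hM : Nonempty ({X // X ∈ A} ≃o (Submonoid M)ᵒᵈ))
    (hA : ∀ X ∈ A, ∀ Y ∈ A, X ∪ Y ∈ A)
    (hsep : ∀ x ∈ A.sup id, ∀ y ∈ A.sup id, x ≠ y →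
      ∃ T ∈ A, (x ∈ T ∧ y ∉ T) ∨ (y ∈ T ∧ x ∉ T))
    (hpow : A ≠ (A.sup id).powerset) :
    ∃ x ∈ A.sup id, 2 * (A.filter fun T => x ∈ T).card > A.card := by
  obtain ⟨e⟩ := hM
  have := Pool.Agent.K35c.SG.fin_submon M
  have hG' : Pool.Agent.K35c.SG.GCond M := by
    intro G _ φ hφ
    have : Finite G := Finite.of_injective φ hφ
    rcases hG G φ hφ with h | h
    · exact Pool.Agent.K35c.SG.ppGen_of_solvable G h
    · exact Or.inr h
  exact Pool.Agent.R636.FL.poonen_of_good A hA e
    (Pool.Agent.K35c.SG.good_submonoid _ M le_rfl hG')
    ⟨_, (e.symm (OrderDual.toDual ⊥)).2⟩ hsep hpow

end Pool.Agent.Results.MP_75f39d_co.SubmonoidLattices
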